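import Pool.Agent.Lib.MP_90430c_co.FourE

/-!
# The largest number of negative circles of length four

`S(n, 4)` has an explicit upper bound `top4 n`; for `n = 2` and `n = 1` modulo `4` it is attained
exactly when there is a symmetric conference matrix of order `n`, `n + 1`. So the largest element
of `S(n, 4)` is known for `n = q - 1, q, q + 1`, for every prime power `q = 1` modulo `4`.
-/

namespace Pool.Agent.Results.MP_90430c_co.FourMax

open _root_.MP_90430c

theorem result :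
    (∀ n, 4 ≤ n → ∀ x ∈ SS n 4, x ≤ top4 n) ∧
    (∀ n, 4 ≤ n → n % 4 = 2 → (top4 n ∈ SS n 4 ↔ ∃ C, IsConf n C)) ∧
    (∀ n, 4 ≤ n → n % 4 = 1 → (top4 n ∈ SS n 4 ↔ ∃ C, IsConf (n + 1) C)) ∧
    (∀ n, 4 ≤ n → n % 4 = 0 → (∃ C, IsConf (n + 2) C) → top4 n ∈ SS n 4) ∧
    (∀ q, IsPrimePow q → q % 4 = 1 → IsGreatest (SS (q + 1) 4) (top4 (q + 1)) ∧
      IsGreatest (SS q 4) (top4 q) ∧ IsGreatest (SS (q - 1) 4) (top4 (q - 1))) :=
  Four.main

end Pool.Agent.Results.MP_90430c_co.FourMax
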