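import Pool.Agent.Lib.MP_90430c_co.Full.All

/-!
# No gaps in the set of numbers of negative circles, up to the top

For every fixed `l` all multiples of `g(n, l)` between `C n ^ (l - 3/2)` and `M - C n ^ e` are
numbers of negative circles of length `l`, where `M` is the greatest such number; the exponent `e`
is `l - 3/2` for odd `l` and `l/2 + 1 - 1/(8 l ^ 2)` for even `l`.
-/

namespace Pool.Agent.Results.MP_90430c_co.FullRange

open _root_.MP_90430c

theorem result (l : ℕ) (hl : 3 ≤ l) : ∃ C : ℝ, ∀ n : ℕ, l ≤ n → ∃ M ∈ SS n l,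
    (∀ x ∈ SS n l, gg n l ∣ x ∧ x ≤ M) ∧
    ∀ x : ℕ, gg n l ∣ x → C * (n : ℝ) ^ ((l : ℝ) - 3 / 2) ≤ x →
      (x : ℝ) ≤ M - C * (n : ℝ) ^ Full.eu l → x ∈ SS n l :=
  Full.range l hl

end Pool.Agent.Results.MP_90430c_co.FullRange
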