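import Pool.Agent.Lib.MP_90430c_co.LowEnd

/-!
# The gap structure of the numbers of negative circles at the lower end

For `l ≥ 4` and large `n` the elements of `S(n,l)` below `(1 - ε) n^(l-3/2)` lie in the intervals
`[a_t, b_t]`, `a_t = t (n-1-t) (n-3)_(l-3)`, `b_t = t (n-2)_(l-2)`, which are separated by gaps of
length at least `(ε/2) n (n-3)_(l-3)`; the left end points belong to `S(n,l)`; and the signatures
with so few negative circles of length `l` are, up to switching (and negation, for even `l`), those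
with `t` negative edges, where `t² ≤ (1 - ε) n`.
-/

namespace Pool.Agent.Results.MP_90430c_co.GapStructure

open _root_.MP_90430c

theorem result (l : ℕ) (hl : 4 ≤ l) (ε : ℝ) (hε : 0 < ε) (hε1 : ε < 1) : ∃ n₀ : ℕ, ∀ n : ℕ, n₀ ≤ n →
    (∀ t : ℕ, t < n → lowA n l t ∈ SS n l) ∧
    ∀ σ : Sym2 (Fin n) → ℤˣ, (negCircles n l σ : ℝ) ≤ (1 - ε) * (n : ℝ) ^ ((l : ℝ) - 3 / 2) →
      ∃ (t : ℕ) (τ : Sym2 (Fin n) → ℤˣ), SwEq n l σ τ ∧ negEdges n τ = t ∧
        (t : ℝ) ^ 2 ≤ (1 - ε) * n ∧ lowA n l t ≤ negCircles n l σ ∧ negCircles n l σ ≤ lowB n l t ∧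
        (lowB n l t : ℝ) + ε / 2 * n * ((n - 3).descFactorial (l - 3) : ℕ) ≤ lowA n l (t + 1) :=
  low_end l hl ε hε hε1

end Pool.Agent.Results.MP_90430c_co.GapStructure
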