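import Pool.Agent.Lib.MP_90430c_co.TopG

/-!
# The top end of the set of numbers of negative circles of even length

For even `l` the greatest element of `S(n, l)` exceeds half the number of all circles of length
`l` by a quantity of the exact order `n ^ (l/2 + 1)`, with explicit constants, for all `n ≥ l`.
-/

namespace Pool.Agent.Results.MP_90430c_co.TopEnd

open _root_.MP_90430c

theorem result (l n : ℕ) (he : Even l) (hl : 4 ≤ l) (hn : l ≤ n) :
    (∀ x ∈ SS n l, (x : ℝ) ≤ top n l + 2 ^ (l ^ 3) / (4 * l) * (n : ℝ) ^ (l / 2 + 1)) ∧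
    ∃ x ∈ SS n l, top n l + ((n : ℝ) / (2 * l)) ^ (l / 2 + 1) / (4 * l) ≤ x :=
  Top.topEnd l n he hl hn

end Pool.Agent.Results.MP_90430c_co.TopEnd
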